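import Pool.Agent.Helper8.OT.Ult

/-!
Deterministic rounding of a fractional online solution on an ultrametric, cost factor 8, loads at
most the fractional loads plus 5/4.

`rdD` is the excess of the loads over the fractional loads, `rdE` the excess after the fractional
step, if the request `w` is served by itself. A site `j` is admissible (`rdOK`) if `j = w` and
`E {w} ≤ 5/4`, or if, with `l = lev w j ≥ 1`, for all `l' < l` the cluster of `j` has excess `< 0`
and the cluster of `w` has excess `≥ 5/4`. An admissible site exists (`rd_exists`), the excess of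
a site stays `≤ 5/4` (`rd_inv`), and `4 rdG`, the potential, pays for the moves (`rd_step`).
-/

namespace Pool.Agent.Helper80.WL

open Finset Pool.Agent.Helper8.OT

variable {V : Type} [Fintype V] [DecidableEq V]

/-- the excess of the loads over the fractional loads -/
private noncomputable def rdD (s : ℕ → V) (x : ℕ → V → ℝ) (t : ℕ) (k : V) : ℝ :=
  (((range t).filter (fun r => s r = k)).card : ℝ) - ∑ r ∈ range t, x r k

/-- the excess after the fractional step, if the request is served by itself -/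
private noncomputable def rdE (w : V) (s : ℕ → V) (x : ℕ → V → ℝ) (t : ℕ) (k : V) : ℝ :=
  rdD s x t k - x t k + if k = w then 1 else 0

/-- admissible sites -/
private def rdOK (lev : V → V → ℕ) (w : V) (E : V → ℝ) (j : V) : Prop :=
  (j = w ∧ E w ≤ 5 / 4) ∨ (1 ≤ lev w j ∧ ∀ l < lev w j,
    ∑ k ∈ cl lev l j, E k < 0 ∧ 5 / 4 ≤ ∑ k ∈ cl lev l w, E k)

private theorem rd_descend {lev : V → V → ℕ} (hlev : IsUlt lev) (E : V → ℝ) : ∀ m i,
    ∑ k ∈ cl lev m i, E k < 0 → ∃ j ∈ cl lev m i, ∀ l ≤ m, ∑ k ∈ cl lev l j, E k < 0 := by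
  intro m
  induction m with
  | zero =>
    intro i hi
    refine ⟨i, self_mem_cl hlev 0 i, fun l hl => ?_⟩
    rw [Nat.le_zero.1 hl]
    exact hi
  | succ m ih =>
    intro i hi
    have hex : ∃ j ∈ cl lev (m + 1) i, ∑ k ∈ cl lev m j, E k < 0 := by
      by_contra hcon
      push Not at hcon
      have h1 : ∀ v ∈ children lev m (cl lev (m + 1) i), 0 ≤ ∑ k ∈ v, E k := by
        intro v hv
        unfold children at hv
        rw [mem_image] at hv
        obtain ⟨j, hj, rfl⟩ := hv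
        exact hcon j hj
      have h2 := sum_nonneg h1
      rw [sum_children hlev (cl_mem_clusters lev (m + 1) i)] at h2
      exact absurd hi (not_lt.2 h2)
    obtain ⟨j0, hj0, hj0'⟩ := hex
    obtain ⟨j, hj, hjl⟩ := ih j0 hj0'
    have hP : cl lev (m + 1) j0 = cl lev (m + 1) i := cl_eq hlev hj0
    have hjP : j ∈ cl lev (m + 1) i := by
      rw [← hP]
      exact cl_mono (Nat.le_succ m) j0 hj
    refine ⟨j, hjP, fun l hl => ?_⟩
    rcases Nat.lt_or_eq_of_le hl with h | h
    · exact hjl l (by omega)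
    · rw [h, cl_eq hlev hjP]
      exact hi

private theorem rd_exists {lev : V → V → ℕ} (hlev : IsUlt lev) (K : ℕ)
    (hK : ∀ i j, lev i j ≤ K) (w : V) (E : V → ℝ) (hE : ∑ k, E k = 0) :
    ∃ j, rdOK lev w E j := by
  classical
  by_cases h0 : E w ≤ 5 / 4
  · exact ⟨w, Or.inl ⟨rfl, h0⟩⟩
  push Not at h0
  have hex : ∃ l, ∑ k ∈ cl lev l w, E k < 5 / 4 := by
    refine ⟨K, ?_⟩
    have h1 : cl lev K w = univ := by
      ext x
      rw [mem_cl]
      exact ⟨fun _ => mem_univ x, fun _ => hK _ _⟩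
    rw [h1, hE]
    norm_num
  obtain ⟨l, hl, hmin⟩ : ∃ l, ∑ k ∈ cl lev l w, E k < 5 / 4 ∧
      ∀ l' < l, 5 / 4 ≤ ∑ k ∈ cl lev l' w, E k :=
    ⟨Nat.find hex, Nat.find_spec hex, fun l' h => not_lt.1 (Nat.find_min hex h)⟩
  obtain ⟨m, rfl⟩ : ∃ m, l = m + 1 := by
    cases l with
    | zero =>
      rw [cl_zero hlev, sum_singleton] at hl
      exact absurd h0 (not_lt.2 hl.le)
    | succ m => exact ⟨m, rfl⟩
  have hex2 : ∃ j ∈ cl lev (m + 1) w, j ∉ cl lev m w ∧ ∑ k ∈ cl lev m j, E k < 0 := by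
    by_contra hcon
    push Not at hcon
    have hw : cl lev m w ∈ children lev m (cl lev (m + 1) w) := by
      unfold children
      exact mem_image_of_mem _ (self_mem_cl hlev (m + 1) w)
    have h1 : ∀ v ∈ (children lev m (cl lev (m + 1) w)).erase (cl lev m w),
        0 ≤ ∑ k ∈ v, E k := by
      intro v hv
      rw [mem_erase] at hv
      obtain ⟨hne, hv⟩ := hv
      unfold children at hv
      rw [mem_image] at hv
      obtain ⟨j, hj, rfl⟩ := hv
      exact hcon j hj fun h => hne (cl_eq hlev h)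
    have h2 := sum_nonneg h1
    have h3 := sum_children hlev (cl_mem_clusters lev (m + 1) w) E
    rw [← add_sum_erase _ _ hw] at h3
    have h4 := hmin m (Nat.lt_succ_self m)
    linarith
  obtain ⟨j0, hj0, hj0w, hj0'⟩ := hex2
  obtain ⟨j, hj, hjl⟩ := rd_descend hlev E m j0 hj0'
  have h5 : j ∈ cl lev (m + 1) w := by
    rw [← cl_eq hlev hj0]
    exact cl_mono (Nat.le_succ m) j0 hj
  have h6 : j ∉ cl lev m w := by
    intro h
    apply hj0w
    rw [← cl_eq hlev h, cl_eq hlev hj]
    exact self_mem_cl hlev m j0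
  have h7 : lev w j = m + 1 := by
    rw [mem_cl] at h5 h6
    omega
  exact ⟨j, Or.inr ⟨by omega, fun l' hl' => ⟨hjl l' (by omega), hmin l' (by omega)⟩⟩⟩

private theorem rdD_succ (w : V) (s : ℕ → V) (x : ℕ → V → ℝ) (t : ℕ) (k : V) :
    rdD s x (t + 1) k =
      rdE w s x t k - (if k = w then 1 else 0) + if k = s t then 1 else 0 := by
  unfold rdE rdD
  rw [range_add_one, sum_insert notMem_range_self, filter_insert]
  by_cases h : s t = k
  · have h' : k = s t := h.symm
    rw [if_pos h, card_insert_of_notMem (by simp), if_pos h']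
    push_cast
    ring
  · have h' : ¬ k = s t := fun h' => h h'.symm
    rw [if_neg h, if_neg h']
    ring

/-- the excess of a site is at most `5/4` -/
private theorem rd_inv {lev : V → V → ℕ} (hlev : IsUlt lev) (w : V) (s : ℕ → V)
    (x : ℕ → V → ℝ) (t : ℕ) (hx : ∀ k, 0 ≤ x t k)
    (hok : rdOK lev w (rdE w s x t) (s t)) (hD : ∀ k, rdD s x t k ≤ 5 / 4) (k : V) :
    rdD s x (t + 1) k ≤ 5 / 4 := by
  have h1 := rdD_succ w s x t k
  have hk := hx k
  have hDk := hD k
  have hEk : rdE w s x t k = rdD s x t k - x t k + if k = w then 1 else 0 := rfl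
  rcases hok with ⟨h2, h3⟩ | ⟨h2, h3⟩
  · rw [h1, h2]
    by_cases h : k = w
    · rw [h, if_pos rfl]
      linarith
    · rw [if_neg h] at hEk ⊢
      linarith
  · have h4 := (h3 0 (by omega)).1
    rw [cl_zero hlev, sum_singleton] at h4
    rw [h1]
    by_cases hs : k = s t
    · rw [if_pos hs, hs]
      split_ifs <;> linarith
    · rw [if_neg hs, hEk]
      linarith

/-- the potential -/
private noncomputable def rdG (lev : V → V → ℕ) (K : ℕ) (δ : ℕ → ℝ) (F : V → ℝ) : ℝ :=
  ∑ l ∈ range K, δ (l + 1) * ∑ v ∈ clusters lev l, max 0 (∑ k ∈ v, F k - 1)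

private theorem rd_delta_le (δ : ℕ → ℝ) (hδz : δ 0 = 0) (hδ0 : ∀ k, 0 ≤ δ k) (K l : ℕ)
    (hl : l ≤ K) : δ l ≤ ∑ k ∈ range K, if k < l then δ (k + 1) else 0 := by
  have h0 : ∀ k ∈ range K, 0 ≤ (if k < l then δ (k + 1) else 0) := by
    intro k _
    split_ifs
    · exact hδ0 _
    · exact le_rfl
  rcases Nat.eq_zero_or_pos l with h | h
  · rw [h, hδz]
    rw [h] at h0
    exact sum_nonneg h0
  · obtain ⟨m, rfl⟩ := Nat.exists_eq_succ_of_ne_zero h.ne'
    have h1 := single_le_sum h0 (mem_range.mpr (show m < K by omega))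
    rw [if_pos (Nat.lt_succ_self m)] at h1
    exact h1

private theorem rd_sum_delta_le (δ : ℕ → ℝ) (hδz : δ 0 = 0) (hδ0 : ∀ k, 0 ≤ δ k)
    (hδ : ∀ k, 1 ≤ k → 2 * δ k ≤ δ (k + 1)) (l : ℕ) :
    ∑ k ∈ range l, δ (k + 1) ≤ 2 * δ l := by
  induction l with
  | zero =>
    rw [sum_range_zero, hδz, mul_zero]
  | succ l ih =>
    rw [sum_range_succ]
    have h : 2 * δ l ≤ δ (l + 1) := by
      rcases Nat.eq_zero_or_pos l with h | h
      · rw [h, hδz, mul_zero]
        exact hδ0 _
      · exact hδ l h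
    linarith

private theorem rd_sum_if_le (δ : ℕ → ℝ) (hδz : δ 0 = 0) (hδ0 : ∀ k, 0 ≤ δ k)
    (hδ : ∀ k, 1 ≤ k → 2 * δ k ≤ δ (k + 1)) (K l : ℕ) (hl : l ≤ K) :
    ∑ k ∈ range K, (if k < l then δ (k + 1) else 0) ≤ 2 * δ l := by
  have h : ∑ k ∈ range K, (if k < l then δ (k + 1) else 0) = ∑ k ∈ range l, δ (k + 1) := by
    rw [← sum_filter]
    refine sum_congr ?_ (fun _ _ => rfl)
    ext k
    rw [mem_filter, mem_range, mem_range]
    omega
  rw [h]
  exact rd_sum_delta_le δ hδz hδ0 hδ l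

/-- the fractional step -/
private theorem rd_G1 {lev : V → V → ℕ} (hlev : IsUlt lev) (K : ℕ)
    (hK : ∀ i j, lev i j ≤ K) (δ : ℕ → ℝ) (hδz : δ 0 = 0) (hδ0 : ∀ k, 0 ≤ δ k)
    (hδ : ∀ k, 1 ≤ k → 2 * δ k ≤ δ (k + 1)) (w : V) (D E x : V → ℝ) (hx : ∀ k, 0 ≤ x k)
    (hx1 : ∑ k, x k = 1) (hE : ∀ k, E k = D k - x k + if k = w then 1 else 0) :
    rdG lev K δ E ≤ rdG lev K δ D + 2 * ∑ k, δ (lev w k) * x k := by
  have hlevel : ∀ l, ∑ v ∈ clusters lev l, max 0 (∑ k ∈ v, E k - 1) ≤
      ∑ v ∈ clusters lev l, max 0 (∑ k ∈ v, D k - 1) + ∑ k, if l < lev w k then x k else 0 := by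
    intro l
    obtain ⟨y, hy⟩ : ∃ y : ℝ, y = ∑ k, if l < lev w k then x k else 0 := ⟨_, rfl⟩
    have hy0 : 0 ≤ y := by
      rw [hy]
      refine sum_nonneg fun k _ => ?_
      split_ifs
      · exact hx k
      · exact le_rfl
    have hsplit : ∑ k ∈ cl lev l w, x k + y = 1 := by
      rw [← hx1, hy]
      unfold cl
      rw [sum_filter, ← sum_add_distrib]
      refine sum_congr rfl fun k _ => ?_
      by_cases h : lev w k ≤ l
      · rw [if_pos h, if_neg (not_lt.2 h), add_zero]
      · rw [if_neg h, if_pos (not_le.1 h), zero_add]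
    rw [← hy]
    have hsum : ∑ v ∈ clusters lev l, (if v = cl lev l w then y else 0) = y := by
      rw [sum_ite_eq', if_pos (cl_mem_clusters lev l w)]
    rw [← hsum, ← sum_add_distrib]
    refine sum_le_sum fun v hv => ?_
    have hEv : ∑ k ∈ v, E k = ∑ k ∈ v, D k - ∑ k ∈ v, x k + if w ∈ v then 1 else 0 := by
      rw [sum_congr rfl fun k _ => hE k, sum_add_distrib, sum_sub_distrib, sum_ite_eq']
    have h1 := le_max_left (0 : ℝ) (∑ k ∈ v, D k - 1)
    have h2 := le_max_right (0 : ℝ) (∑ k ∈ v, D k - 1)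
    by_cases hw : w ∈ v
    · have h3 : v = cl lev l w := mem_clusters hlev hv hw
      rw [if_pos hw] at hEv
      rw [if_pos h3]
      have h4 : ∑ k ∈ v, x k + y = 1 := by rw [h3]; exact hsplit
      refine max_le (by linarith) (by linarith)
    · have h3 : v ≠ cl lev l w := by
        intro h
        rw [h] at hw
        exact hw (self_mem_cl hlev l w)
      rw [if_neg hw] at hEv
      rw [if_neg h3]
      have h4 : 0 ≤ ∑ k ∈ v, x k := sum_nonneg fun k _ => hx k
      refine max_le (by linarith) (by linarith)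
  have h1 : rdG lev K δ E ≤ ∑ l ∈ range K, δ (l + 1) *
      (∑ v ∈ clusters lev l, max 0 (∑ k ∈ v, D k - 1) + ∑ k, if l < lev w k then x k else 0) :=
    sum_le_sum fun l _ => mul_le_mul_of_nonneg_left (hlevel l) (hδ0 _)
  refine h1.trans ?_
  have h2 : ∑ l ∈ range K, δ (l + 1) * (∑ v ∈ clusters lev l, max 0 (∑ k ∈ v, D k - 1) +
      ∑ k, if l < lev w k then x k else 0) = rdG lev K δ D +
      ∑ k, x k * ∑ l ∈ range K, (if l < lev w k then δ (l + 1) else 0) := by
    unfold rdG
    simp only [mul_add, sum_add_distrib, mul_sum]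
    congr 1
    rw [sum_comm]
    refine sum_congr rfl fun k _ => sum_congr rfl fun l _ => ?_
    split_ifs
    · ring
    · ring
  rw [h2, mul_sum]
  refine add_le_add le_rfl (sum_le_sum fun k _ => ?_)
  have h3 := mul_le_mul_of_nonneg_left (rd_sum_if_le δ hδz hδ0 hδ K (lev w k) (hK w k)) (hx k)
  linarith

/-- the move -/
private theorem rd_G2 {lev : V → V → ℕ} (hlev : IsUlt lev) (K : ℕ)
    (hK : ∀ i j, lev i j ≤ K) (δ : ℕ → ℝ) (hδz : δ 0 = 0) (hδ0 : ∀ k, 0 ≤ δ k) (w j : V)
    (E F : V → ℝ) (hF : ∀ k, F k = E k - (if k = w then 1 else 0) + if k = j then 1 else 0)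
    (hok : rdOK lev w E j) : δ (lev w j) + 4 * rdG lev K δ F ≤ 4 * rdG lev K δ E := by
  rcases hok with ⟨h2, -⟩ | ⟨-, h3⟩
  · have h4 : F = E := by
      funext k
      rw [hF, h2]
      ring
    rw [h4, h2, (hlev.zero w w).2 rfl, hδz, zero_add]
  have hlevel : ∀ l, ∑ v ∈ clusters lev l, max 0 (∑ k ∈ v, F k - 1) ≤
      ∑ v ∈ clusters lev l, max 0 (∑ k ∈ v, E k - 1) - if l < lev w j then 1 / 4 else 0 := by
    intro l
    have hFv : ∀ v : Finset V, ∑ k ∈ v, F k =
        ∑ k ∈ v, E k - (if w ∈ v then 1 else 0) + if j ∈ v then 1 else 0 := by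
      intro v
      rw [sum_congr rfl fun k _ => hF k, sum_add_distrib, sum_sub_distrib, sum_ite_eq',
        sum_ite_eq']
    by_cases hl : l < lev w j
    · rw [if_pos hl]
      have hsum : ∑ v ∈ clusters lev l, (if v = cl lev l w then (1 / 4 : ℝ) else 0) = 1 / 4 := by
        rw [sum_ite_eq', if_pos (cl_mem_clusters lev l w)]
      rw [← hsum, ← sum_sub_distrib]
      refine sum_le_sum fun v hv => ?_
      obtain ⟨h5, h6⟩ := h3 l hl
      have h7 := hFv v
      have h8 := le_max_left (0 : ℝ) (∑ k ∈ v, E k - 1)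
      have h9 := le_max_right (0 : ℝ) (∑ k ∈ v, E k - 1)
      by_cases hw : w ∈ v
      · have hv' : v = cl lev l w := mem_clusters hlev hv hw
        have hj : j ∉ v := by
          rw [hv', mem_cl]
          omega
        rw [if_pos hw, if_neg hj] at h7
        rw [if_pos hv']
        rw [← hv'] at h6
        refine max_le (by linarith) (by linarith)
      · have hv' : v ≠ cl lev l w := by
          intro h
          rw [h] at hw
          exact hw (self_mem_cl hlev l w)
        rw [if_neg hv', sub_zero]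
        by_cases hj : j ∈ v
        · have hv2 : v = cl lev l j := mem_clusters hlev hv hj
          rw [if_neg hw, if_pos hj] at h7
          rw [← hv2] at h5
          refine max_le (by linarith) (by linarith)
        · rw [if_neg hw, if_neg hj] at h7
          rw [h7]
          simp
    · rw [if_neg hl, sub_zero]
      refine sum_le_sum fun v hv => ?_
      have h7 := hFv v
      have hiff : w ∈ v ↔ j ∈ v := by
        constructor
        · intro hw
          rw [mem_clusters hlev hv hw, mem_cl]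
          omega
        · intro hj
          rw [mem_clusters hlev hv hj, mem_cl, hlev.symm]
          omega
      have h8 : ∑ k ∈ v, F k = ∑ k ∈ v, E k := by
        rw [h7]
        by_cases hw : w ∈ v
        · rw [if_pos hw, if_pos (hiff.1 hw)]
          ring
        · rw [if_neg hw, if_neg fun h => hw (hiff.2 h)]
          ring
      rw [h8]
  have h1 : rdG lev K δ F ≤ ∑ l ∈ range K, δ (l + 1) *
      (∑ v ∈ clusters lev l, max 0 (∑ k ∈ v, E k - 1) - if l < lev w j then 1 / 4 else 0) :=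
    sum_le_sum fun l _ => mul_le_mul_of_nonneg_left (hlevel l) (hδ0 _)
  have h2 : ∑ l ∈ range K, δ (l + 1) * (∑ v ∈ clusters lev l, max 0 (∑ k ∈ v, E k - 1) -
      if l < lev w j then 1 / 4 else 0) = rdG lev K δ E -
      (∑ l ∈ range K, if l < lev w j then δ (l + 1) else 0) / 4 := by
    unfold rdG
    simp only [mul_sub, sum_sub_distrib, sum_div]
    congr 1
    refine sum_congr rfl fun l _ => ?_
    split_ifs
    · ring
    · ring
  rw [h2] at h1
  have h4 := rd_delta_le δ hδz hδ0 K (lev w j) (hK w j)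
  linarith

private theorem rd_step {lev : V → V → ℕ} (hlev : IsUlt lev) (K : ℕ)
    (hK : ∀ i j, lev i j ≤ K) (δ : ℕ → ℝ) (hδz : δ 0 = 0) (hδ0 : ∀ k, 0 ≤ δ k)
    (hδ : ∀ k, 1 ≤ k → 2 * δ k ≤ δ (k + 1)) (w : V) (s : ℕ → V) (x : ℕ → V → ℝ) (t : ℕ)
    (hx : ∀ k, 0 ≤ x t k) (hx1 : ∑ k, x t k = 1) (hok : rdOK lev w (rdE w s x t) (s t)) :
    δ (lev w (s t)) + 4 * rdG lev K δ (rdD s x (t + 1)) ≤
      4 * rdG lev K δ (rdD s x t) + 8 * ∑ k, δ (lev w k) * x t k := by
  have h1 := rd_G1 hlev K hK δ hδz hδ0 hδ w (rdD s x t) (rdE w s x t) (x t) hx hx1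
    (fun _ => rfl)
  have h2 := rd_G2 hlev K hK δ hδz hδ0 w (s t) (rdE w s x t) (rdD s x (t + 1))
    (fun k => rdD_succ w s x t k) hok
  linarith

omit [Fintype V] in
private theorem rdE_congr (w : V) {s s' : ℕ → V} {x x' : ℕ → V → ℝ} {t : ℕ}
    (hs : ∀ r < t, s r = s' r) (hx : ∀ r ≤ t, x r = x' r) : rdE w s x t = rdE w s' x' t := by
  funext k
  unfold rdE rdD
  have h1 : (range t).filter (fun r => s r = k) = (range t).filter (fun r => s' r = k) :=
    filter_congr fun r hr => by rw [hs r (mem_range.1 hr)]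
  have h2 : ∑ r ∈ range t, x r k = ∑ r ∈ range t, x' r k :=
    sum_congr rfl fun r hr => by rw [hx r (mem_range.1 hr).le]
  rw [h1, h2, hx t le_rfl]

private theorem rd_sum (w : V) (s : ℕ → V) (x : ℕ → V → ℝ) (t : ℕ)
    (hx : ∀ r ≤ t, ∑ k, x r k = 1) : ∑ k, rdE w s x t k = 0 := by
  have h1 : ∑ k, (((range t).filter (fun r => s r = k)).card : ℝ) = t := by
    have h2 := card_eq_sum_card_fiberwise (s := range t) (t := (univ : Finset V)) (f := s)
      (fun _ _ => mem_univ _)
    rw [card_range] at h2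
    conv_rhs => rw [h2]
    push_cast
    rfl
  have h3 : ∑ k, ∑ r ∈ range t, x r k = t := by
    rw [sum_comm, sum_congr rfl fun r hr => hx r (mem_range.1 hr).le]
    simp
  unfold rdE rdD
  rw [sum_add_distrib, sum_sub_distrib, sum_sub_distrib, h1, h3, hx t le_rfl, sum_ite_eq',
    if_pos (mem_univ w)]
  ring

/-- The algorithm: choose an admissible site, by recursion on the time. -/
private noncomputable def rdS [Nonempty V] (lev : V → V → ℕ) (u : ℕ → V) (x : ℕ → V → ℝ)
    (t : ℕ) : V :=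
  Classical.epsilon (rdOK lev (u t)
    (rdE (u t) (fun r => if _h : r < t then rdS lev u x r else u r) x t))
termination_by t

private theorem rdS_eq [Nonempty V] (lev : V → V → ℕ) (u : ℕ → V) (x : ℕ → V → ℝ) (t : ℕ) :
    rdS lev u x t = Classical.epsilon (rdOK lev (u t) (rdE (u t) (rdS lev u x) x t)) := by
  rw [rdS]
  rw [rdE_congr (u t) (s' := rdS lev u x) (x' := x) (fun r hr => by simp [hr])
    (fun _ _ => rfl)]

private theorem rdS_causal [Nonempty V] (lev : V → V → ℕ) (u u' : ℕ → V) (x x' : ℕ → V → ℝ)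
    (t : ℕ) (hu : ∀ r ≤ t, u r = u' r) (hx : ∀ r ≤ t, x r = x' r) :
    rdS lev u x t = rdS lev u' x' t := by
  induction t using Nat.strong_induction_on with
  | _ t ih =>
    rw [rdS_eq, rdS_eq, hu t le_rfl]
    rw [rdE_congr (u' t) (s' := rdS lev u' x') (x' := x') (fun r hr =>
      ih r hr (fun q hq => hu q (hq.trans hr.le)) (fun q hq => hx q (hq.trans hr.le))) hx]

theorem round [Nonempty V] {lev : V → V → ℕ} (hlev : IsUlt lev) (K : ℕ)
    (hK : ∀ i j, lev i j ≤ K) (δ : ℕ → ℝ) (hδz : δ 0 = 0) (hδ0 : ∀ k, 0 ≤ δ k)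
    (hδ : ∀ k, 1 ≤ k → 2 * δ k ≤ δ (k + 1)) (X : (ℕ → V) → ℕ → V → ℝ)
    (hX : ∀ u u' t, (∀ r ≤ t, u r = u' r) → X u t = X u' t) :
    ∃ S : (ℕ → V) → ℕ → V, (∀ u u' t, (∀ r ≤ t, u r = u' r) → S u t = S u' t) ∧
      ∀ u n, (∀ r < n, (∀ k, 0 ≤ X u r k) ∧ ∑ k, X u r k = 1) →
        (∀ k, (((range n).filter (fun r => S u r = k)).card : ℝ) ≤
          ∑ r ∈ range n, X u r k + 5 / 4) ∧
        ∑ r ∈ range n, δ (lev (u r) (S u r)) ≤
          8 * ∑ r ∈ range n, ∑ k, δ (lev (u r) k) * X u r k := by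
  refine ⟨fun u t => rdS lev u (X u) t, fun u u' t h => rdS_causal lev u u' _ _ t h
    fun r hr => hX u u' r fun q hq => h q (hq.trans hr), fun u n hn => ?_⟩
  obtain ⟨s, hs⟩ : ∃ s, s = rdS lev u (X u) := ⟨_, rfl⟩
  have hok : ∀ t < n, rdOK lev (u t) (rdE (u t) s (X u) t) (s t) := by
    intro t ht
    have h1 := Classical.epsilon_spec (rd_exists hlev K hK (u t) (rdE (u t) s (X u) t)
      (rd_sum (u t) s (X u) t fun r hr => (hn r (hr.trans_lt ht)).2))
    rw [hs] at h1 ⊢
    rwa [← rdS_eq] at h1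
  have hD : ∀ t ≤ n, ∀ k, rdD s (X u) t k ≤ 5 / 4 := by
    intro t
    induction t with
    | zero =>
      intro _ k
      unfold rdD
      norm_num
    | succ t ih =>
      intro ht k
      exact rd_inv hlev (u t) s (X u) t (hn t ht).1 (hok t ht) (ih (Nat.le_of_succ_le ht)) k
  have hP : ∀ t ≤ n, ∑ r ∈ range t, δ (lev (u r) (s r)) + 4 * rdG lev K δ (rdD s (X u) t) ≤
      8 * ∑ r ∈ range t, ∑ k, δ (lev (u r) k) * X u r k := by
    intro t
    induction t with
    | zero =>
      intro _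
      unfold rdG rdD
      simp
    | succ t ih =>
      intro ht
      have h1 := ih (Nat.le_of_succ_le ht)
      have h2 := rd_step hlev K hK δ hδz hδ0 hδ (u t) s (X u) t (hn t ht).1 (hn t ht).2
        (hok t ht)
      rw [sum_range_succ, sum_range_succ]
      linarith
  constructor
  · intro k
    have h1 := hD n le_rfl k
    rw [hs] at h1
    unfold rdD at h1
    linarith
  · have h1 := hP n le_rfl
    have h2 : 0 ≤ rdG lev K δ (rdD s (X u) n) :=
      sum_nonneg fun l _ => mul_nonneg (hδ0 _) (sum_nonneg fun v _ => le_max_left _ _)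
    rw [hs] at h1 h2
    linarith

end Pool.Agent.Helper80.WL
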